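import Pool.Agent.Q216.NR.Final

/-!
# The set of `p`-th roots of a nilpotent quaternionic matrix is path-connected

For every `n`, every nilpotent `A ∈ M_n(ℍ)` and every `p ≥ 1` the set
`A^{1/p} = {X : X ^ p = A}` is empty or path-connected.
-/

set_option autoImplicit false

namespace Pool.Agent.Results.MP_6980f8_al.RootsConnected

/-- The set `A^{1/p}` of all `p`-th roots of the quaternionic `n × n` matrix `A`. -/
def Roots {n : ℕ} (A : Matrix (Fin n) (Fin n) (Quaternion ℝ)) (p : ℕ) :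
    Set (Matrix (Fin n) (Fin n) (Quaternion ℝ)) :=
  {X | X ^ p = A}

/-- Full positive answer: for all `n`, all nilpotent `A ∈ M_n(ℍ)` and all `p ≥ 1`, the set
`A^{1/p}` is path-connected as soon as it is nonempty. -/
theorem result (n : ℕ) (A : Matrix (Fin n) (Fin n) (Quaternion ℝ)) (hA : ∃ k : ℕ, 1 ≤ k ∧ A ^ k = 0)
    (p : ℕ) (hp : 1 ≤ p) (hne : (Roots A p).Nonempty) : IsPathConnected (Roots A p) := by
  obtain ⟨X, hX⟩ := hne
  obtain ⟨k, _, hk⟩ := hA
  exact ⟨X, hX, fun {Y} hY => Pool.Agent.Q216.NR.main A ⟨k, hk⟩ p hp X Y hX hY⟩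

end Pool.Agent.Results.MP_6980f8_al.RootsConnected
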